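import Pool.Agent.EXS.PDefsX
import Pool.Agent.EXS.PDefsQ

/-!
# A sparse sequence of cyclic extensions for Stark's conjecture: one automorphism, printable
definitions
-/

open NumberField IsDedekindDomain
open scoped Classical

namespace StarkW

open StarkP

/-- Stark's assertion `A_S(ψ, φ)^σ = A_S(ψ^σ, φ)` with the given `S` and `σ` for the linear
character `ψ` of `Gal(L/K)` and all `φ`. -/
def LinAt (σ : ℂ ≃+* ℂ) {K L : Type} [Field K] [NumberField K] [Field L] [NumberField L]
    [Algebra K L] (S : Finset (HeightOneSpectrum (𝓞 K))) (ψ : (L ≃ₐ[K] L) →* ℂˣ) : Prop :=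
  ∀ Θ : ((L → ℝ) →₀ ℂ) →ₗ[ℂ] ((L → ℝ) →₀ ℂ), IsTheta K (aboveSet K L S) Θ →
    StarkAt S (aboveSet K L S) Θ (linRep ψ) (linRep (twist σ ψ)) σ

/-- Stark's assertion for `σ` with `S = S_∞` for all injective linear characters of
`Gal(L/K)`. -/
def FaithAt (σ : ℂ ≃+* ℂ) (K L : Type) [Field K] [NumberField K] [Field L] [NumberField L]
    [Algebra K L] : Prop :=
  ∀ ψ : (L ≃ₐ[K] L) →* ℂˣ, Function.Injective ψ → LinAt σ ∅ ψ

/-- Stark's assertion for `σ` with `S = S_∞` for all injective totally odd linear characters of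
`Gal(L/K)`, for all finite Galois extensions `L/K` of totally real number fields `K`. -/
def OddAt (σ : ℂ ≃+* ℂ) : Prop :=
  ∀ (K L : Type) [Field K] [NumberField K] [Field L] [NumberField L] [Algebra K L] [IsGalois K L]
    (ψ : (L ≃ₐ[K] L) →* ℂˣ), Function.Injective ψ → CaseD K L ψ → LinAt σ ∅ ψ

/-- Stark's conjecture for the automorphism `σ`, for all finite Galois extensions of number
fields, all `S`, `φ` and all characters. -/
def ConjAt (σ : ℂ ≃+* ℂ) : Prop :=
  ∀ (K L V V' : Type) [Field K] [NumberField K] [Field L] [NumberField L] [Algebra K L]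
    [IsGalois K L] [AddCommGroup V] [Module ℂ V] [Module.Finite ℂ V]
    [AddCommGroup V'] [Module ℂ V'] [Module.Finite ℂ V']
    (ρ : Representation ℂ (L ≃ₐ[K] L) V) (ρ' : Representation ℂ (L ≃ₐ[K] L) V'),
    (∀ g, ρ'.character g = σ (ρ.character g)) → StarkRep ρ ρ' σ

end StarkW
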