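import Pool.Agent.EXS.OUTE
import Pool.Agent.EXSG.PDefsS

/-!
# Stark's assertion for one automorphism
-/

open NumberField IsDedekindDomain
open scoped TensorProduct Classical

namespace StarkC.EXSG

/-- Stark's assertion for the linear character `ψ` and `σ`, all `S`, `φ`. -/
def LinS (σ : ℂ ≃+* ℂ) (K L : Type) [Field K] [NumberField K] [Field L] [NumberField L]
    [Algebra K L] (ψ : (L ≃ₐ[K] L) →* ℂˣ) : Prop :=
  ∀ (S : Finset (HeightOneSpectrum (𝓞 K)))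
    (φ : XQ L (aboveSet K L S) ≃ₗ[ℚ] QU L (aboveSet K L S))
    (Θ : XC L (aboveSet K L S) →ₗ[ℂ] XC L (aboveSet K L S)),
    IsPhiTheta K (aboveSet K L S) φ Θ →
    StarkAt (S : Set (HeightOneSpectrum (𝓞 K))) (aboveSet K L S) Θ (linRep ψ)
      (linRep (twist σ ψ)) σ

/-- Stark's assertion for the linear character `ψ` and `σ`, all `φ`, with `S = ∅`. -/
def InfS (σ : ℂ ≃+* ℂ) (K L : Type) [Field K] [NumberField K] [Field L] [NumberField L]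
    [Algebra K L] (ψ : (L ≃ₐ[K] L) →* ℂˣ) : Prop :=
  ∀ (φ : XQ L (aboveSet K L (∅ : Finset (HeightOneSpectrum (𝓞 K)))) ≃ₗ[ℚ]
      QU L (aboveSet K L (∅ : Finset (HeightOneSpectrum (𝓞 K)))))
    (Θ : XC L (aboveSet K L (∅ : Finset (HeightOneSpectrum (𝓞 K)))) →ₗ[ℂ]
      XC L (aboveSet K L (∅ : Finset (HeightOneSpectrum (𝓞 K))))),
    IsPhiTheta K (aboveSet K L (∅ : Finset (HeightOneSpectrum (𝓞 K)))) φ Θ →
    StarkAt ((∅ : Finset (HeightOneSpectrum (𝓞 K))) : Set (HeightOneSpectrum (𝓞 K)))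
      (aboveSet K L (∅ : Finset (HeightOneSpectrum (𝓞 K)))) Θ (linRep ψ) (linRep (twist σ ψ)) σ

theorem linAt_iff (σ : ℂ ≃+* ℂ) {K L : Type} [Field K] [NumberField K] [Field L] [NumberField L]
    [Algebra K L] [IsGalois K L] (ψ : (L ≃ₐ[K] L) →* ℂˣ) :
    StarkW.LinAt σ ∅ ψ ↔ InfS σ K L ψ := by
  unfold StarkW.LinAt InfS
  rw [StarkB.aboveSet_eq]
  exact StarkB.starkAt_iff' ((∅ : Finset (HeightOneSpectrum (𝓞 K))) : Set (HeightOneSpectrum (𝓞 K)))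
    (∅ : Finset (HeightOneSpectrum (𝓞 K))).finite_toSet (linRep ψ) (linRep (twist σ ψ)) σ

/-- From the field cut out by `ψ` and `S = ∅` to `N` and any `S`. -/
theorem up (σ : ℂ ≃+* ℂ)
    (F L N : Type) [Field F] [NumberField F] [Field L] [NumberField L] [Field N] [NumberField N]
    [Algebra F L] [Algebra F N] [Algebra L N] [IsScalarTower F L N] [IsGalois F L] [IsGalois F N]
    (ψ' : (L ≃ₐ[F] L) →* ℂˣ) (h : InfS σ F L ψ') (ψ : (N ≃ₐ[F] N) →* ℂˣ)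
    (hψ : ∀ g : N ≃ₐ[F] N, ψ' (AlgEquiv.restrictNormalHom L g : L ≃ₐ[F] L) = ψ g) :
    LinS σ F N ψ := by
  have hψ2 : ψ = ψ'.comp (AlgEquiv.restrictNormalHom L) := by
    refine MonoidHom.ext fun g => ?_
    exact (hψ g).symm
  subst hψ2
  intro S φ Θ hφ
  obtain ⟨φ₀, Θ₀, h₀⟩ := SFULL.exph F L ∅
  have hst := h φ₀ Θ₀ h₀
  obtain ⟨φ₁, Θ₁, h₁, hReg⟩ := RFULL.infl F L N ∅ φ₀ Θ₀ h₀
  obtain ⟨f, f', hf, hf', hEq⟩ := hst
  have h2 : StarkAt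
      ((∅ : Finset (HeightOneSpectrum (𝓞 F))) : Set (HeightOneSpectrum (𝓞 F)))
      (aboveSet F N (∅ : Finset (HeightOneSpectrum (𝓞 F)))) Θ₁
      (linRep (ψ'.comp (AlgEquiv.restrictNormalHom L)))
      (linRep (twist σ (ψ'.comp (AlgEquiv.restrictNormalHom L)))) σ := by
    refine ⟨f, f', ⟨hf.1, fun s hs => ?_⟩, ⟨hf'.1, fun s hs => ?_⟩, ?_⟩
    · rw [hf.2 s hs, BASEQ.linRep_comp, MAIN.logL_infl LINF_thm]
    · rw [hf'.2 s hs]
      have h1 := MAIN.logL_infl LINF_thm F L N ℂ (linRep (twist σ ψ'))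
        ((∅ : Finset (HeightOneSpectrum (𝓞 F))) : Set (HeightOneSpectrum (𝓞 F))) s
      rw [← h1]
      rfl
    · have h1 := hReg ℂ (linRep ψ')
      have h2 := hReg ℂ (linRep (twist σ ψ'))
      rw [← h1, ← h2] at hEq
      exact hEq
  exact (SMAIN.starkAt_of_one _ _ _ _ _ _).1 (SFULL.sindp F N
    (ψ'.comp (AlgEquiv.restrictNormalHom L)) σ 1
    ∅ S φ₁ Θ₁ φ Θ h₁ hφ ((SMAIN.starkAt_of_one _ _ _ _ _ _).2 h2))

/-- `LinS` for data given on a set `T` equal to `aboveSet F L S`. -/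
theorem linS_cast {σ : ℂ ≃+* ℂ} {F L : Type} [Field F] [NumberField F] [Field L] [NumberField L]
    [Algebra F L] {ψ : (L ≃ₐ[F] L) →* ℂˣ} (h : LinS σ F L ψ)
    (S : Finset (HeightOneSpectrum (𝓞 F))) (T : Set (HeightOneSpectrum (𝓞 L)))
    (hT : aboveSet F L (S : Set (HeightOneSpectrum (𝓞 F))) = T)
    (φ : XQ L T ≃ₗ[ℚ] QU L T) (Θ : XC L T →ₗ[ℂ] XC L T) (hφ : IsPhiTheta F T φ Θ) :
    StarkAt (S : Set (HeightOneSpectrum (𝓞 F))) T Θ (linRep ψ) (linRep (twist σ ψ)) σ := by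
  subst hT
  exact h S φ Θ hφ

/-- IND at one automorphism. -/
theorem indS (σ : ℂ ≃+* ℂ) (K N : Type) [Field K] [NumberField K] [Field N] [NumberField N]
    [Algebra K N] [IsGalois K N]
    (S : Finset (HeightOneSpectrum (𝓞 K)))
    (φ : XQ N (aboveSet K N S) ≃ₗ[ℚ] QU N (aboveSet K N S))
    (Θ : XC N (aboveSet K N S) →ₗ[ℂ] XC N (aboveSet K N S))
    (V V' : Type) [AddCommGroup V] [Module ℂ V] [Module.Finite ℂ V]
    [AddCommGroup V'] [Module ℂ V'] [Module.Finite ℂ V']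
    (ρ : Representation ℂ (N ≃ₐ[K] N) V) (ρ' : Representation ℂ (N ≃ₐ[K] N) V')
    (m : ℕ) (H : Fin m → Subgroup (N ≃ₐ[K] N)) (ψ : ∀ i, H i →* ℂˣ) (n : Fin m → ℤ)
    (hφ : IsPhiTheta K (aboveSet K N S) φ Θ) (hσ : ∀ g, ρ'.character g = σ (ρ.character g))
    (hchar : ∀ g, ρ.character g = ∑ i, (n i : ℂ) * indFun (H i) (extZ (ψ i)) g)
    (hgood : ∀ i, LinS σ (IntermediateField.fixedField (H i)) N (liftChar (H i) (ψ i))) :
    StarkAt (S : Set (HeightOneSpectrum (𝓞 K))) (aboveSet K N S) Θ ρ ρ' σ := by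
  obtain ⟨M', hM', h⟩ := SFULL.indp (fun M => M = 1) rfl (fun a b ha hb => by rw [ha, hb])
    K N S φ Θ V V' ρ ρ' σ 1 m H ψ n rfl hφ hσ (fun g => by
      rw [Nat.cast_one, one_mul]
      exact hchar g) (fun i => by
      obtain ⟨S', hS'⟩ := IND.exists_S' (IntermediateField.fixedField (H i))
        (S : Set (HeightOneSpectrum (𝓞 K))) S.finite_toSet
      exact ⟨1, S', rfl, hS', (SMAIN.starkAt_of_one _ _ _ _ _ _).2
        (linS_cast (hgood i) S' _ hS' φ Θ (IND.isPhiTheta_sub _ hφ))⟩)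
  subst hM'
  exact (SMAIN.starkAt_of_one _ _ _ _ _ _).1 h

/-- Stark's assertion at `σ` for a representation of `Gal(L/K)` from a combination of induced
characters over a larger field. -/
theorem of_comb (σ : ℂ ≃+* ℂ)
    {K L N : Type} [Field K] [NumberField K] [Field L] [NumberField L] [Field N] [NumberField N]
    [Algebra K L] [Algebra K N] [Algebra L N] [IsScalarTower K L N] [IsGalois K L] [IsGalois K N]
    (S : Finset (HeightOneSpectrum (𝓞 K)))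
    (φ : XQ L (aboveSet K L S) ≃ₗ[ℚ] QU L (aboveSet K L S))
    (Θ : XC L (aboveSet K L S) →ₗ[ℂ] XC L (aboveSet K L S))
    (V V' : Type) [AddCommGroup V] [Module ℂ V] [Module.Finite ℂ V]
    [AddCommGroup V'] [Module ℂ V'] [Module.Finite ℂ V']
    (ρ : Representation ℂ (L ≃ₐ[K] L) V) (ρ' : Representation ℂ (L ≃ₐ[K] L) V')
    (hφ : IsPhiTheta K (aboveSet K L S) φ Θ) (hσ : ∀ g, ρ'.character g = σ (ρ.character g))
    {ι : Type} [Fintype ι] (H : ι → Subgroup (N ≃ₐ[K] N)) (ψ : ∀ i, H i →* ℂˣ) (n : ι → ℤ)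
    (hchar : ∀ g : N ≃ₐ[K] N, ρ.character (AlgEquiv.restrictNormalHom L g) =
        ∑ i, (n i : ℂ) * indFun (H i) (extZ (ψ i)) g)
    (hgood : ∀ i, LinS σ (IntermediateField.fixedField (H i)) N (liftChar (H i) (ψ i))) :
    StarkAt (S : Set (HeightOneSpectrum (𝓞 K))) (aboveSet K L S) Θ ρ ρ' σ := by
  obtain ⟨φ', Θ', hφ', hR⟩ := RFULL.infl K L N S φ Θ hφ
  let e := Fintype.equivFin ι
  have hchar' : ∀ g : N ≃ₐ[K] N, ρ.character (AlgEquiv.restrictNormalHom L g) =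
      ∑ j : Fin (Fintype.card ι), (n (e.symm j) : ℂ) *
        indFun (H (e.symm j)) (extZ (ψ (e.symm j))) g := by
    intro g
    rw [hchar g]
    exact Fintype.sum_equiv e _ _ fun i => by rw [Equiv.symm_apply_apply]
  have h3 := indS σ K N S φ' Θ' V V' (ρ.comp (AlgEquiv.restrictNormalHom L))
    (ρ'.comp (AlgEquiv.restrictNormalHom L)) (Fintype.card ι) (fun j => H (e.symm j))
    (fun j => ψ (e.symm j)) (fun j => n (e.symm j)) hφ' (fun g => hσ _) hchar'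
    (fun j => hgood (e.symm j))
  obtain ⟨f, f', hf, hf', hE⟩ := h3
  refine ⟨f, f', ⟨hf.1, fun s hs => ?_⟩, ⟨hf'.1, fun s hs => ?_⟩, ?_⟩
  · rw [hf.2 s hs, MAIN.logL_infl LINF_thm]
  · rw [hf'.2 s hs, MAIN.logL_infl LINF_thm]
  · rw [hR V ρ, hR V' ρ'] at hE
    exact hE

/-- The totally odd characters at one automorphism. -/
theorem ofD (σ : ℂ ≃+* ℂ) (hD : StarkW.OddAt σ)
    (F N : Type) [Field F] [NumberField F] [Field N] [NumberField N] [Algebra F N] [IsGalois F N]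
    (ψ : (N ≃ₐ[F] N) →* ℂˣ) (hF : IsTotallyReal F)
    (ho : ∀ (Φ : N →+* ℂ) (c : N ≃ₐ[F] N), ComplexEmbedding.IsConj Φ c → (ψ c : ℂ) = -1) :
    LinS σ F N ψ := by
  obtain ⟨L, _, _, _, _, _, _, ψ', hinj, hψ'⟩ := FAITH.exists_field F N ψ
  exact up σ F L N ψ' ((linAt_iff σ ψ').1 (hD F L ψ' hinj
    ⟨hF, SFAITH.odd_down F L N hψ' ho⟩)) ψ hψ'

/-! ### Descent to `ℚ` -/

/-- Stark's conjecture over `ℚ` at `σ`. -/
def ConjQ (σ : ℂ ≃+* ℂ) : Prop :=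
  ∀ (L : Type) [Field L] [NumberField L] [IsGalois ℚ L]
    (S : Finset (HeightOneSpectrum (𝓞 ℚ)))
    (φ : XQ L (aboveSet ℚ L S) ≃ₗ[ℚ] QU L (aboveSet ℚ L S))
    (Θ : XC L (aboveSet ℚ L S) →ₗ[ℂ] XC L (aboveSet ℚ L S))
    (V V' : Type) [AddCommGroup V] [Module ℂ V] [Module.Finite ℂ V]
    [AddCommGroup V'] [Module ℂ V'] [Module.Finite ℂ V']
    (ρ : Representation ℂ (L ≃ₐ[ℚ] L) V) (ρ' : Representation ℂ (L ≃ₐ[ℚ] L) V'),
    IsPhiTheta ℚ (aboveSet ℚ L S) φ Θ → (∀ g, ρ'.character g = σ (ρ.character g)) →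
    StarkAt (S : Set (HeightOneSpectrum (𝓞 ℚ))) (aboveSet ℚ L S) Θ ρ ρ' σ

/-- Data over `F`, `N` with `N/ℚ` Galois. -/
theorem linearN {σ : ℂ ≃+* ℂ} (hPQ : ConjQ σ)
    (F N : Type) [Field F] [NumberField F] [Field N] [NumberField N] [Algebra F N]
    [IsGalois F N] [IsGalois ℚ N] (ψ : (N ≃ₐ[F] N) →* ℂˣ) : LinS σ F N ψ := by
  intro S φ Θ hφ
  obtain ⟨S₁, hS₁⟩ := BASEQ.exists_S1 (E := ℚ) (F := F) (N := N) ∅
  obtain ⟨φ₀, Θ₀, h₀⟩ := SFULL.exph ℚ N ∅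
  obtain ⟨V, _, _, _, ρ, hρ⟩ := INDREP_thm (N ≃ₐ[ℚ] N) (fixK ℚ F N) (BASEQ.chr ℚ ψ)
  obtain ⟨V', _, _, _, ρ', hρ'⟩ := INDREP_thm (N ≃ₐ[ℚ] N) (fixK ℚ F N)
    (twist σ (BASEQ.chr ℚ ψ))
  have hσ : ∀ g, ρ'.character g = σ (ρ.character g) := by
    intro g
    rw [hρ', hρ, IND.twist_indFun]
  have hst := hPQ N ∅ φ₀ Θ₀ V V' ρ ρ' h₀ hσ
  have h1 := SFULL.downl ℚ F N ∅ S₁ hS₁ φ₀ Θ₀ h₀ V V' ρ ρ' ψ σ (fun g => by
    rw [hρ, BASEQ.extZ_chr]) hσ 1 ((SMAIN.starkAt_of_one _ _ _ _ _ _).2 hst)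
  exact (SMAIN.starkAt_of_one _ _ _ _ _ _).1 (BASEQ.sind_cast SFULL.sindp ψ σ 1 S₁ S _ hS₁ φ₀ Θ₀
    φ Θ (BASEQ.isPhiTheta_res h₀) hφ h1)

/-- Data over `F`, `L`. -/
theorem linear {σ : ℂ ≃+* ℂ} (hPQ : ConjQ σ)
    (F L : Type) [Field F] [NumberField F] [Field L] [NumberField L] [Algebra F L]
    [IsGalois F L] (ψ : (L ≃ₐ[F] L) →* ℂˣ) : LinS σ F L ψ := by
  intro S φ Θ hφ
  obtain ⟨N, _, _, _, _, _⟩ := GALQ_thm L
  let alg : Algebra F N := ((algebraMap L N).comp (algebraMap F L)).toAlgebra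
  have hst : IsScalarTower F L N := IsScalarTower.of_algebraMap_eq fun x => rfl
  have hgal : IsGalois F N := IsGalois.tower_top_of_isGalois ℚ F N
  obtain ⟨φ', Θ', hφ', hReg⟩ := RFULL.infl F L N S φ Θ hφ
  obtain ⟨f, f', hf, hf', hEq⟩ := linearN hPQ F N
    (ψ.comp (AlgEquiv.restrictNormalHom L)) S φ' Θ' hφ'
  refine ⟨f, f', ⟨hf.1, fun s hs => ?_⟩, ⟨hf'.1, fun s hs => ?_⟩, ?_⟩
  · rw [hf.2 s hs, BASEQ.linRep_comp, MAIN.logL_infl LINF_thm]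
  · rw [hf'.2 s hs]
    have h1 := MAIN.logL_infl LINF_thm F L N ℂ (linRep (twist σ ψ))
      (S : Set (HeightOneSpectrum (𝓞 F))) s
    rw [← h1]
    rfl
  · have h1 := hReg ℂ (linRep ψ)
    have h2 := hReg ℂ (linRep (twist σ ψ))
    rw [← h1, ← h2]
    exact hEq

/-- Stark's conjecture at `σ` from its case over `ℚ`. -/
theorem conj_of_conjQ {σ : ℂ ≃+* ℂ} (hPQ : ConjQ σ) : StarkW.ConjAt σ := by
  intro K L V V' _ _ _ _ _ _ _ _ _ _ _ _ ρ ρ' hσ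
  refine (StarkB.starkRep_iff ρ ρ' σ).2 fun S φ Θ hφ => ?_
  obtain ⟨m, H, ψ, n, hχ⟩ := SFULL.bra (L ≃ₐ[K] L) V ρ
  exact indS σ K L S φ Θ V V' ρ ρ' m H ψ n hφ hσ hχ fun i =>
    linear hPQ (IntermediateField.fixedField (H i)) L (liftChar (H i) (ψ i))

/-- A linear character from Stark's conjecture at `σ`. -/
theorem linAt_of_conj {σ : ℂ ≃+* ℂ} (h : StarkW.ConjAt σ) (K L : Type) [Field K] [NumberField K]
    [Field L] [NumberField L] [Algebra K L] [IsGalois K L] (ψ : (L ≃ₐ[K] L) →* ℂˣ) :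
    StarkW.LinAt σ ∅ ψ := by
  rw [linAt_iff]
  intro φ Θ hφ
  have h1 := (StarkB.starkRep_iff (linRep ψ) (linRep (twist σ ψ)) σ).1
    (h K L ℂ ℂ (linRep ψ) (linRep (twist σ ψ)) (fun g => by
      rw [MAIN.linRep_character, MAIN.linRep_character]
      rfl))
  exact h1 ∅ φ Θ hφ

end StarkC.EXSG
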