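import Pool.Agent.EXSG.PDefsS

/-!
# A sparse sequence of cyclic extensions for Stark's conjecture: one character, printable
definitions
-/

open NumberField IsDedekindDomain
open scoped Classical

namespace StarkW

open StarkP

/-- Stark's assertion `A_S(χ, φ)^σ = A_S(χ^σ, φ)` for the given `σ` and the character `χ` of the
representation `ρ`, for all `S` and `φ`. -/
def RepAt (σ : ℂ ≃+* ℂ) {K L V : Type} [Field K] [NumberField K] [Field L] [NumberField L]
    [Algebra K L] [AddCommGroup V] [Module ℂ V] (ρ : Representation ℂ (L ≃ₐ[K] L) V) : Prop :=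
  ∀ (V' : Type) [AddCommGroup V'] [Module ℂ V'] [Module.Finite ℂ V']
    (ρ' : Representation ℂ (L ≃ₐ[K] L) V'),
    (∀ g, ρ'.character g = σ (ρ.character g)) → StarkRep ρ ρ' σ

end StarkW
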