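import Pool.Agent.EXSG.SIG2
import Pool.Agent.EXSG.PDefsL

/-!
# Each character needs finitely many of the extensions
-/

open NumberField IsDedekindDomain Filter
open scoped TensorProduct Classical

namespace StarkC.EXSG

open StarkC.EXS

variable {N : ℕ → Type} [∀ k, Field (N k)] [∀ k, NumberField (N k)] [∀ k, IsGalois ℚ (N k)]

/-- Stark's assertion at `σ` for the extensions with indices in `J₀` and for the totally odd
characters. -/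
def HypS (Y : ℕ → SSQM.Ext) (J₀ : Finset ℕ) (σ : ℂ ≃+* ℂ) : Prop :=
  (∀ j ∈ J₀, StarkW.FaithAt σ (Y j).K (Y j).L) ∧ StarkW.OddAt σ

/-- Finitely many indices in `J` suffice for the combination `t`. -/
def LocT (Y : ℕ → SSQM.Ext) (J : Set ℕ) (t : Task N) : Prop :=
  ∃ J₀ : Finset ℕ, (∀ j ∈ J₀, j ∈ J) ∧
    ∃ (T : Finset ℕ) (E : Type) (_ : Field E) (M : LevE E), DecAt T E t M ∧
      ∀ σ : ℂ ≃+* ℂ, (∀ j ∈ J₀, StarkW.FaithAt σ (Y j).K (Y j).L) → ∀ p : Pr T E M, GoodS p σ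

/-- The sequence of extensions. -/
theorem seqL (hLE : Stmt_LEVE) (hD : DecQ) (hO : OutS) (hC : Stmt_COMB5)
    (hcof : ∀ (M : Type) [Field M] [NumberField M], ∃ k, Nonempty (M →+* N k))
    (F g : ℕ → ℕ) (hg : Tendsto g atTop atTop) :
    ∃ Y : ℕ → SSQM.Ext,
      (∀ j, F j ≤ Module.finrank ℚ (Y j).K ∧ PairQ ∅ ℚ 1 (Y j).K (Y j).L) ∧
      (∀ (T : Finset ℕ) (E : Type) [Field E] [NumberField E] (ε : ℝ), 0 < ε →
        ∀ᶠ j in atTop, PairQ T E ε (Y j).K (Y j).L) ∧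
      ∀ J : Set ℕ, (∃ᶠ a in atTop, ∀ j, a ≤ j → j ≤ a + g a → j ∈ J) →
        ∀ t : Task N, LocT Y J t := by
  have hct := task_countable N
  have hne := task_nonempty N
  obtain ⟨tk, htk⟩ := exists_surjective_nat (Task N)
  have hS : ∀ s, Nonempty (StgS N s) := fun s => exists_stgS hLE hD hO s
  let S : ∀ s, StgS N s := fun s => (hS s).some
  have hfin : ∀ s, Finite (FmS tk (S s)) := fun s => fmS_finite tk (S s)
  have hnon : ∀ s, Nonempty (FmS tk (S s)) := fun s => fmS_nonempty tk (S s)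
  let P : ℕ → ℕ := fun s => Nat.card (FmS tk (S s))
  have hP : ∀ s, 0 < P s := fun s => Nat.card_pos
  let e : ∀ s, FmS tk (S s) ≃ Fin (P s) := fun s => Finite.equivFin _
  obtain ⟨lev, hlev, hJ⟩ := hC P hP g hg
  let x : ∀ m, FmS tk (S (lev m)) := fun m =>
    (e (lev m)).symm ⟨m % P (lev m), Nat.mod_lt _ (hP _)⟩
  let B : ℕ → ℕ := fun m => ∑ r ∈ Finset.range 5, F (5 * m + r)
  have hX : ∀ m, ConclS (Finset.range (lev m)) (S (lev m)).E (1 / ((lev m : ℝ) + 1)) (B m)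
      (FmGoodS tk (S (lev m)) (x m)) := fun m => fmS_out tk (S (lev m)) (x m) (B m)
  choose X hX1 hX2 using hX
  have hpair : ∀ j, PairQ (Finset.range (lev (j / 5))) (S (lev (j / 5))).E
      (1 / ((lev (j / 5) : ℝ) + 1)) (X (j / 5) ⟨j % 5, Nat.mod_lt _ (by norm_num)⟩).K
      (X (j / 5) ⟨j % 5, Nat.mod_lt _ (by norm_num)⟩).L := fun j => (hX1 (j / 5) _).1
  refine ⟨fun j => X (j / 5) ⟨j % 5, Nat.mod_lt _ (by norm_num)⟩, fun j => ⟨?_, ?_⟩, ?_, ?_⟩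
  · refine le_trans ?_ (hX1 (j / 5) ⟨j % 5, Nat.mod_lt _ (by norm_num)⟩).2
    have h1 : F (5 * (j / 5) + j % 5) ≤ B (j / 5) :=
      Finset.single_le_sum (f := fun r => F (5 * (j / 5) + r)) (fun _ _ => Nat.zero_le _)
        (Finset.mem_range.2 (Nat.mod_lt _ (by norm_num)))
    rwa [Nat.div_add_mod] at h1
  · refine pairQ_mono (Finset.empty_subset _) (algebraMap ℚ (S (lev (j / 5))).E) ?_ (hpair j)
    have h1 : (0 : ℝ) ≤ (lev (j / 5) : ℝ) := Nat.cast_nonneg _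
    rw [div_le_one (by positivity)]
    linarith
  · intro T E _ _ ε hε
    obtain ⟨k, ⟨ι⟩⟩ := hcof E
    obtain ⟨b, hb⟩ : ∃ b, T ⊆ Finset.range b := by
      obtain ⟨b, hb⟩ := T.bddAbove
      exact ⟨b + 1, fun x hx => Finset.mem_range.2 (Nat.lt_succ_of_le (hb hx))⟩
    obtain ⟨c, hc⟩ := exists_nat_one_div_lt hε
    have h1 : ∀ᶠ j : ℕ in atTop, max k (max b c) ≤ lev (j / 5) :=
      (hlev.comp (Nat.tendsto_div_const_atTop (by norm_num : (5 : ℕ) ≠ 0))).eventually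
        (eventually_ge_atTop _)
    filter_upwards [h1] with j hj
    obtain ⟨κ⟩ := (S (lev (j / 5))).emb k (le_trans (le_max_left _ _) hj)
    refine pairQ_mono (hb.trans (Finset.range_subset_range.2 ?_)) (κ.comp ι) ?_ (hpair j)
    · exact le_trans (le_trans (le_max_left _ _) (le_max_right _ _)) hj
    · refine le_trans ?_ hc.le
      have h2 : (c : ℝ) ≤ (lev (j / 5) : ℝ) := by
        exact_mod_cast le_trans (le_trans (le_max_right _ _) (le_max_right _ _)) hj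
      exact one_div_le_one_div_of_le (by positivity) (by linarith)
  · intro J hJa t
    obtain ⟨i₀, rfl⟩ := htk t
    obtain ⟨s, hs, hs2⟩ := hJ J hJa i₀
    have hs3 : ∀ i : Fin (P s), ∃ m : ℕ, (∀ r < 5, 5 * m + r ∈ J) ∧ ∀ σ : ℂ ≃+* ℂ,
        (∀ r < 5, (fun E : SSQM.Ext => StarkW.FaithAt σ E.K E.L)
          (X ((5 * m + r) / 5) ⟨(5 * m + r) % 5, Nat.mod_lt _ (by norm_num)⟩)) →
        FmGoodS tk (S s) ((e s).symm i) σ := by
      intro i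
      obtain ⟨m, hm, hmi, hmJ⟩ := hs2 i.1 i.2
      subst hm
      refine ⟨m, hmJ, fun σ hf => ?_⟩
      have hxi : x m = (e (lev m)).symm i := by
        have h3 : (⟨m % P (lev m), Nat.mod_lt _ (hP _)⟩ : Fin (P (lev m))) = i :=
          Fin.ext hmi
        show (e (lev m)).symm _ = _
        rw [h3]
      rw [← hxi]
      refine hX2 m σ fun r => ?_
      have h5 := hf (r : ℕ) r.2
      have h6 : (5 * m + (r : ℕ)) / 5 = m := by omega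
      have h7 : (5 * m + (r : ℕ)) % 5 = r := by omega
      have h8 : X ((5 * m + (r : ℕ)) / 5) ⟨(5 * m + (r : ℕ)) % 5, Nat.mod_lt _ (by norm_num)⟩ =
          X m r := by
        have h9 : (⟨(5 * m + (r : ℕ)) % 5, Nat.mod_lt _ (by norm_num)⟩ : Fin 5) = r :=
          Fin.ext h7
        rw [h9, h6]
      rw [h8] at h5
      exact h5
    choose m hmJ hmg using hs3
    refine ⟨Finset.univ.biUnion fun i : Fin (P s) => (Finset.range 5).image fun r => 5 * m i + r,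
      ?_, Finset.range s, (S s).E, inferInstance, (S s).M (tk i₀), (S s).dec (tk i₀),
      fun σ hf p => ?_⟩
    · intro j hj
      obtain ⟨i, -, hi⟩ := Finset.mem_biUnion.1 hj
      obtain ⟨r, hr, rfl⟩ := Finset.mem_image.1 hi
      exact hmJ i r (Finset.mem_range.1 hr)
    · let y : FmS tk (S s) := some ⟨⟨i₀, by omega⟩, p⟩
      have h1 := hmg (e s y) σ fun r hr => hf (5 * m (e s y) + r) (Finset.mem_biUnion.2
        ⟨e s y, Finset.mem_univ _, Finset.mem_image.2 ⟨r, Finset.mem_range.2 hr, rfl⟩⟩)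
      rw [Equiv.symm_apply_apply] at h1
      exact h1 ⟨⟨i₀, by omega⟩, p⟩ rfl

/-- Stark's assertion at `σ` for a representation of `Gal(L/ℚ)`. -/
def RepQ (σ : ℂ ≃+* ℂ) (L V : Type) [Field L] [NumberField L] [AddCommGroup V] [Module ℂ V]
    (ρ : Representation ℂ (L ≃ₐ[ℚ] L) V) : Prop :=
  ∀ (S : Finset (HeightOneSpectrum (𝓞 ℚ)))
    (φ : XQ L (aboveSet ℚ L S) ≃ₗ[ℚ] QU L (aboveSet ℚ L S))
    (Θ : XC L (aboveSet ℚ L S) →ₗ[ℂ] XC L (aboveSet ℚ L S))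
    (V' : Type) [AddCommGroup V'] [Module ℂ V'] [Module.Finite ℂ V']
    (ρ' : Representation ℂ (L ≃ₐ[ℚ] L) V'),
    IsPhiTheta ℚ (aboveSet ℚ L S) φ Θ → (∀ g, ρ'.character g = σ (ρ.character g)) →
    StarkAt (S : Set (HeightOneSpectrum (𝓞 ℚ))) (aboveSet ℚ L S) Θ ρ ρ' σ

theorem locQ (Y : ℕ → SSQM.Ext) (J : Set ℕ)
    (hcof : ∀ (M : Type) [Field M] [NumberField M], ∃ k, Nonempty (M →+* N k))
    (hsol : ∀ t : Task N, LocT Y J t) (L V : Type) [Field L] [NumberField L] [IsGalois ℚ L]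
    [AddCommGroup V] [Module ℂ V] [Module.Finite ℂ V] (ρ : Representation ℂ (L ≃ₐ[ℚ] L) V) :
    ∃ J₀ : Finset ℕ, (∀ j ∈ J₀, j ∈ J) ∧ ∀ σ : ℂ ≃+* ℂ, HypS Y J₀ σ → RepQ σ L V ρ := by
  obtain ⟨k, ⟨ι⟩⟩ := hcof L
  let aLN : Algebra L (N k) := ι.toAlgebra
  have h1 : IsMonComb (fun g : N k ≃ₐ[ℚ] N k => ρ.character (AlgEquiv.restrictNormalHom L g)) :=
    SFULL.bra (N k ≃ₐ[ℚ] N k) V (ρ.comp (AlgEquiv.restrictNormalHom L))
  obtain ⟨J₀, hJ₀, T, E, _, M, ⟨aNM, hdec⟩, hgood⟩ := hsol ⟨k, ⟨_, h1⟩⟩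
  refine ⟨J₀, hJ₀, fun σ hyp S φ Θ V' _ _ _ ρ' hφ hσ => ?_⟩
  let aLM : Algebra L M.N := ((algebraMap (N k) M.N).comp (algebraMap L (N k))).toAlgebra
  have hst : IsScalarTower ℚ L M.N := IsScalarTower.of_algebraMap_eq' (Subsingleton.elim _ _)
  obtain ⟨m, H, ψ, n, hP, hF⟩ := CMB.of_mem_GS hdec
  refine of_comb σ (N := M.N) S φ Θ V V' ρ ρ' hφ hσ H ψ n ?_ ?_
  · intro g
    rw [← hF g]
    show _ = ρ.character (AlgEquiv.restrictNormalHom L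
      (AlgEquiv.restrictNormalHom (N k) g : N k ≃ₐ[ℚ] N k))
    rw [SSPANZ.res_res (L := L) (N := N k) (N' := M.N) (fun x => rfl)]
  · intro i
    rcases hP i with h | h
    · exact hgood σ hyp.1 ⟨⟨H i, ψ i⟩, h⟩
    · refine ofD σ hyp.2 _ M.N _ (SMAIN.totallyReal (H i) fun c hc => (h c hc).1) ?_
      intro Φ c hc
      obtain ⟨h4, h5⟩ := h _ ⟨Φ, GOOD.isConj_symm (H i) c Φ hc⟩
      exact h5

/-- Data over `F`, `N` with `N/ℚ` Galois. -/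
theorem linearN_of_rep {σ : ℂ ≃+* ℂ}
    (F N V : Type) [Field F] [NumberField F] [Field N] [NumberField N] [Algebra F N]
    [IsGalois F N] [IsGalois ℚ N] [AddCommGroup V] [Module ℂ V] [Module.Finite ℂ V]
    (ρ : Representation ℂ (N ≃ₐ[ℚ] N) V) (ψ : (N ≃ₐ[F] N) →* ℂˣ)
    (hρ : ∀ g, ρ.character g = indFun (fixK ℚ F N) (extZ (BASEQ.chr ℚ ψ)) g)
    (hPQ : RepQ σ N V ρ) : LinS σ F N ψ := by
  intro S φ Θ hφ
  obtain ⟨S₁, hS₁⟩ := BASEQ.exists_S1 (E := ℚ) (F := F) (N := N) ∅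
  obtain ⟨φ₀, Θ₀, h₀⟩ := SFULL.exph ℚ N ∅
  obtain ⟨V', _, _, _, ρ', hρ'⟩ := INDREP_thm (N ≃ₐ[ℚ] N) (fixK ℚ F N)
    (twist σ (BASEQ.chr ℚ ψ))
  have hσ : ∀ g, ρ'.character g = σ (ρ.character g) := by
    intro g
    rw [hρ', hρ, IND.twist_indFun]
  have hst := hPQ ∅ φ₀ Θ₀ V' ρ' h₀ hσ
  have h1 := SFULL.downl ℚ F N ∅ S₁ hS₁ φ₀ Θ₀ h₀ V V' ρ ρ' ψ σ (fun g => by
    rw [hρ, BASEQ.extZ_chr]) hσ 1 ((SMAIN.starkAt_of_one _ _ _ _ _ _).2 hst)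
  exact (SMAIN.starkAt_of_one _ _ _ _ _ _).1 (BASEQ.sind_cast SFULL.sindp ψ σ 1 S₁ S _ hS₁ φ₀ Θ₀
    φ Θ (BASEQ.isPhiTheta_res h₀) hφ h1)

/-- Data over `F`, `L`. -/
theorem linear_of_up {σ : ℂ ≃+* ℂ}
    (F L N : Type) [Field F] [NumberField F] [Field L] [NumberField L] [Field N] [NumberField N]
    [Algebra F L] [Algebra F N] [Algebra L N] [IsScalarTower F L N] [IsGalois F L] [IsGalois F N]
    (ψ : (L ≃ₐ[F] L) →* ℂˣ)
    (h : LinS σ F N (ψ.comp (AlgEquiv.restrictNormalHom L))) : LinS σ F L ψ := by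
  intro S φ Θ hφ
  obtain ⟨φ', Θ', hφ', hReg⟩ := RFULL.infl F L N S φ Θ hφ
  obtain ⟨f, f', hf, hf', hEq⟩ := h S φ' Θ' hφ'
  refine ⟨f, f', ⟨hf.1, fun s hs => ?_⟩, ⟨hf'.1, fun s hs => ?_⟩, ?_⟩
  · rw [hf.2 s hs, BASEQ.linRep_comp, MAIN.logL_infl LINF_thm]
  · rw [hf'.2 s hs]
    have h1 := MAIN.logL_infl LINF_thm F L N ℂ (linRep (twist σ ψ))
      (S : Set (HeightOneSpectrum (𝓞 F))) s
    rw [← h1]
    rfl
  · have h1 := hReg ℂ (linRep ψ)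
    have h2 := hReg ℂ (linRep (twist σ ψ))
    rw [← h1, ← h2]
    exact hEq

theorem locL (Y : ℕ → SSQM.Ext) (J : Set ℕ)
    (hcof : ∀ (M : Type) [Field M] [NumberField M], ∃ k, Nonempty (M →+* N k))
    (hsol : ∀ t : Task N, LocT Y J t)
    (F L : Type) [Field F] [NumberField F] [Field L] [NumberField L] [Algebra F L]
    [IsGalois F L] (ψ : (L ≃ₐ[F] L) →* ℂˣ) :
    ∃ J₀ : Finset ℕ, (∀ j ∈ J₀, j ∈ J) ∧ ∀ σ : ℂ ≃+* ℂ, HypS Y J₀ σ → LinS σ F L ψ := by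
  obtain ⟨N', _, _, _, _, _⟩ := GALQ_thm L
  let alg : Algebra F N' := ((algebraMap L N').comp (algebraMap F L)).toAlgebra
  have hst : IsScalarTower F L N' := IsScalarTower.of_algebraMap_eq fun x => rfl
  have hgal : IsGalois F N' := IsGalois.tower_top_of_isGalois ℚ F N'
  obtain ⟨V, _, _, _, ρ, hρ⟩ := INDREP_thm (N' ≃ₐ[ℚ] N') (fixK ℚ F N')
    (BASEQ.chr ℚ (ψ.comp (AlgEquiv.restrictNormalHom L)))
  obtain ⟨J₀, hJ₀, h⟩ := locQ Y J hcof hsol N' V ρ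
  exact ⟨J₀, hJ₀, fun σ hyp => linear_of_up F L N' ψ
    (linearN_of_rep F N' V ρ (ψ.comp (AlgEquiv.restrictNormalHom L)) hρ (h σ hyp))⟩

theorem locK (Y : ℕ → SSQM.Ext) (J : Set ℕ)
    (hcof : ∀ (M : Type) [Field M] [NumberField M], ∃ k, Nonempty (M →+* N k))
    (hsol : ∀ t : Task N, LocT Y J t)
    (K L V : Type) [Field K] [NumberField K] [Field L] [NumberField L] [Algebra K L]
    [IsGalois K L] [AddCommGroup V] [Module ℂ V] [Module.Finite ℂ V]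
    (ρ : Representation ℂ (L ≃ₐ[K] L) V) :
    ∃ J₀ : Finset ℕ, (∀ j ∈ J₀, j ∈ J) ∧ ∀ σ : ℂ ≃+* ℂ, HypS Y J₀ σ → StarkW.RepAt σ ρ := by
  obtain ⟨m, H, ψ, n, hχ⟩ := SFULL.bra (L ≃ₐ[K] L) V ρ
  have h1 := fun i : Fin m => locL Y J hcof hsol (IntermediateField.fixedField (H i)) L
    (liftChar (H i) (ψ i))
  choose J₀ hJ₀ h using h1
  refine ⟨Finset.univ.biUnion J₀, fun j hj => ?_, fun σ hyp V' _ _ _ ρ' hσ => ?_⟩
  · obtain ⟨i, -, hi⟩ := Finset.mem_biUnion.1 hj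
    exact hJ₀ i j hi
  · refine (StarkB.starkRep_iff ρ ρ' σ).2 fun S φ Θ hφ => ?_
    exact indS σ K L S φ Θ V V' ρ ρ' m H ψ n hφ hσ hχ fun i =>
      h i σ ⟨fun j hj => hyp.1 j (Finset.mem_biUnion.2 ⟨i, Finset.mem_univ _, hj⟩), hyp.2⟩

/-- Stark's conjecture at each automorphism, for each character, and one sparse sequence of cyclic
extensions. -/
theorem mainL (F g : ℕ → ℕ) (hg : Tendsto g atTop atTop) :
    ∃ Y : ℕ → SSQM.Ext,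
      (∀ j, F j ≤ Module.finrank ℚ (Y j).K ∧
        (StarkW.UnrPair ∅ (Y j).K (Y j).L ∨ StarkW.PowPair ℚ 1 (Y j).K (Y j).L)) ∧
      (∀ (T : Finset ℕ) (E : Type) [Field E] [NumberField E] (ε : ℝ), 0 < ε →
        ∀ᶠ j in atTop, StarkW.QExt E (Y j).K ∧
          (StarkW.UnrPair T (Y j).K (Y j).L ∨ StarkW.PowPair E ε (Y j).K (Y j).L)) ∧
      ∀ J : Set ℕ, (∃ᶠ a in atTop, ∀ j, a ≤ j → j ≤ a + g a → j ∈ J) →
        (∀ (K L V : Type) [Field K] [NumberField K] [Field L] [NumberField L] [Algebra K L]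
          [IsGalois K L] [AddCommGroup V] [Module ℂ V] [Module.Finite ℂ V]
          (ρ : Representation ℂ (L ≃ₐ[K] L) V), ∃ J₀ : Finset ℕ, (∀ j ∈ J₀, j ∈ J) ∧
            ∀ σ : ℂ ≃+* ℂ, (∀ j ∈ J₀, StarkW.FaithAt σ (Y j).K (Y j).L) → StarkW.OddAt σ →
              StarkW.RepAt σ ρ) ∧
        ∀ σ : ℂ ≃+* ℂ, (StarkW.ConjAt σ ↔
          (∀ j ∈ J, StarkW.FaithAt σ (Y j).K (Y j).L) ∧ StarkW.OddAt σ) := by
  obtain ⟨N, _, _, hgal, hcof⟩ := SSQ.COF_thm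
  obtain ⟨Y, hY1, hY2, hY3⟩ := seqL (N := N) LEVE_thm (decQ DECE_thm)
    (outS GCE_thm BCX5_thm IDN5_thm FLDE_thm) COMB5_thm hcof F g hg
  refine ⟨Y, fun j => ⟨(hY1 j).1, (hY1 j).2.1⟩, fun T E _ _ ε hε =>
    (hY2 T E ε hε).mono fun j hj => ⟨hj.2, hj.1⟩, fun J hJ => ?_⟩
  have h1 : ∀ (K L V : Type) [Field K] [NumberField K] [Field L] [NumberField L] [Algebra K L]
      [IsGalois K L] [AddCommGroup V] [Module ℂ V] [Module.Finite ℂ V]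
      (ρ : Representation ℂ (L ≃ₐ[K] L) V), ∃ J₀ : Finset ℕ, (∀ j ∈ J₀, j ∈ J) ∧
        ∀ σ : ℂ ≃+* ℂ, (∀ j ∈ J₀, StarkW.FaithAt σ (Y j).K (Y j).L) → StarkW.OddAt σ →
          StarkW.RepAt σ ρ := by
    intro K L V _ _ _ _ _ _ _ _ _ ρ
    obtain ⟨J₀, hJ₀, h⟩ := locK Y J hcof (hY3 J hJ) K L V ρ
    exact ⟨J₀, hJ₀, fun σ hA hD => h σ ⟨hA, hD⟩⟩
  refine ⟨h1, fun σ => ⟨fun h => ?_, ?_⟩⟩
  · exact ⟨fun j _ ψ _ => linAt_of_conj h (Y j).K (Y j).L ψ,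
      fun K L _ _ _ _ _ _ ψ _ _ => linAt_of_conj h K L ψ⟩
  · rintro ⟨hA, hD⟩ K L V V' _ _ _ _ _ _ _ _ _ _ _ _ ρ ρ' hσ
    obtain ⟨J₀, hJ₀, h⟩ := h1 K L V ρ
    exact h σ (fun j hj => hA j (hJ₀ j hj)) hD V' ρ' hσ

end StarkC.EXSG
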